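import Pool.Agent.Helper89.MS.Defs

namespace Pool.Agent.Helper42.MSK

open Finset

/-- monotonicity from R2: `w (c+1+i) ≤ w (c-i)` -/
theorem mono_of_R2 (w : ℕ → ℝ) (k M : ℕ) (hw : ∀ c, 0 ≤ w c) (h0 : ∀ c, k < c → w c = 0)
    (hR2 : ∀ c, 1 ≤ c → c + 1 ≤ k → ((M : ℝ) + c + 2 - k) * w (c + 1) ≤ ((k : ℝ) - c) * w c)
    (c : ℕ) (hck : c + 1 ≤ k) (hM : 2 * k ≤ 2 * c + M + 2) (i : ℕ) :
    i + 1 ≤ c → w (c + 1 + i) ≤ w (c - i) := by
  have hMr : (2 : ℝ) * k ≤ 2 * c + M + 2 := by exact_mod_cast hM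
  induction i with
  | zero =>
    intro hc
    have h1 := hR2 c (by omega) hck
    have hkc : (0 : ℝ) < (k : ℝ) - c := by
      have : (c : ℝ) + 1 ≤ k := by exact_mod_cast hck
      linarith
    have h2 : ((k : ℝ) - c) * w (c + 1) ≤ ((M : ℝ) + c + 2 - k) * w (c + 1) :=
      mul_le_mul_of_nonneg_right (by linarith) (hw _)
    simpa using le_of_mul_le_mul_left (h2.trans h1) hkc
  | succ i ih =>
    intro hc
    have ih' := ih (by omega)
    rcases Nat.lt_or_ge k (c + 1 + (i + 1)) with hk | hk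
    · rw [h0 _ hk]; exact hw _
    · obtain ⟨d, hd⟩ : ∃ d, c = d + (i + 1) := ⟨c - (i + 1), by omega⟩
      have hd1 : 1 ≤ d := by omega
      have e1 : c - (i + 1) = d := by omega
      have e2 : c - i = d + 1 := by omega
      rw [e2] at ih'
      rw [e1]
      have h1 := hR2 d hd1 (by omega)
      have h2 := hR2 (c + 1 + i) (by omega) (by omega)
      have e3 : c + 1 + i + 1 = c + 1 + (i + 1) := by omega
      rw [e3] at h2
      have hcd : (c : ℝ) = d + (i + 1) := by exact_mod_cast hd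
      have hkr : (c : ℝ) + 1 + (i + 1) ≤ k := by exact_mod_cast hk
      have hi0 : (0 : ℝ) ≤ i := Nat.cast_nonneg i
      push_cast at h2
      have hA : (0 : ℝ) < (k : ℝ) - c + i + 1 := by linarith
      have hB : (0 : ℝ) ≤ (k : ℝ) - c - i - 1 := by linarith
      have g1 : ((k : ℝ) - c + i + 1) * w (c + 1 + (i + 1)) ≤
          ((k : ℝ) - c - i - 1) * w (c + 1 + i) := by
        have : ((k : ℝ) - c + i + 1) * w (c + 1 + (i + 1)) ≤
            ((M : ℝ) + (c + 1 + i) + 2 - k) * w (c + 1 + (i + 1)) :=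
          mul_le_mul_of_nonneg_right (by linarith) (hw _)
        have h2' : ((M : ℝ) + (c + 1 + i) + 2 - k) * w (c + 1 + (i + 1)) ≤
            ((k : ℝ) - c - i - 1) * w (c + 1 + i) := by
          have e : (k : ℝ) - (c + 1 + i) = (k : ℝ) - c - i - 1 := by ring
          rw [← e]; exact h2
        exact this.trans h2'
      have g2 : ((k : ℝ) - c - i - 1) * w (c + 1 + i) ≤ ((k : ℝ) - c - i - 1) * w (d + 1) :=
        mul_le_mul_of_nonneg_left ih' hB
      have g3 : ((k : ℝ) - c - i - 1) * w (d + 1) ≤ ((k : ℝ) - c + i + 1) * w d := by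
        have a1 : ((k : ℝ) - c - i - 1) * w (d + 1) ≤ ((M : ℝ) + d + 2 - k) * w (d + 1) :=
          mul_le_mul_of_nonneg_right (by linarith) (hw _)
        have a2 : ((k : ℝ) - d) = ((k : ℝ) - c + i + 1) := by rw [hcd]; ring
        rw [← a2]
        exact a1.trans h1
      exact le_of_mul_le_mul_left (g1.trans (g2.trans g3)) hA

/-- K3 -/
theorem K3_of_R2 (w : ℕ → ℝ) (k M : ℕ) (hw : ∀ c, 0 ≤ w c) (h0 : ∀ c, k < c → w c = 0)
    (hR2 : ∀ c, 1 ≤ c → c + 1 ≤ k → ((M : ℝ) + c + 2 - k) * w (c + 1) ≤ ((k : ℝ) - c) * w c)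
    (c j : ℕ) (hck : c + 1 ≤ k) (hM : 2 * k ≤ 2 * c + M + 2) (hj : 1 ≤ j) (hjc : j ≤ c) :
    w (c + 1) * w (c + j) ≤ w c * w (c - j + 1) := by
  have h1 := mono_of_R2 w k M hw h0 hR2 c hck hM 0 (by omega)
  have h2 := mono_of_R2 w k M hw h0 hR2 c hck hM (j - 1) (by omega)
  have e1 : c + 1 + (j - 1) = c + j := by omega
  have e2 : c - (j - 1) = c - j + 1 := by omega
  rw [e1, e2] at h2
  simp only [Nat.add_zero, Nat.sub_zero] at h1
  exact mul_le_mul h1 h2 (hw _) (hw _)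

/-- assembly of HYPW from its parts -/
theorem hypw_of
    (h0 : ∀ k l c M : ℕ, k < c → MS.W k l c M = 0)
    (hH0 : ∀ k l M x y z : ℕ, 0 < MS.W k l x M → 0 < MS.W k l y M → x ≤ z → z ≤ y →
      0 < MS.W k l z M)
    (hR2 : ∀ k l M c : ℕ, 2 ≤ l → 1 ≤ c → c + 1 ≤ k →
      ((M : ℝ) + c + 2 - k) * (MS.W k l (c + 1) M : ℝ) ≤ ((k : ℝ) - c) * (MS.W k l c M : ℝ))
    (hK2 : ∀ k l t m n : ℕ, 1 ≤ t → t < m → m ≤ n → t ≤ k → 2 ≤ l → 2 * k ≤ n + t →
      ∀ a b : ℕ, a ≠ b → a + b = m + t → t + 1 ≤ a → t + 1 ≤ b → 0 < MS.W k l a (n - m) →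
        0 < MS.W k l b (n - m) →
        MS.W k l a (n - m) * MS.W k l b (n - m) <
          MS.W k l (a - 1) (n - m) * MS.W k l (b - 1) (n - m))
    (hK0 : ∀ k l n r : ℕ, 1 + 2 * r ≤ n → 1 ≤ k → 2 ≤ l → 2 * k ≤ n + 1 → 1 ≤ r →
      0 < MS.W k l (r + 1) (n - (1 + 2 * r)) →
      MS.W k l (r + 1) (n - (1 + 2 * r)) < MS.W k l r (n - (1 + 2 * r)))
    (hK1 : ∀ k l M c j : ℕ, 2 ≤ l → c + 1 ≤ k → 1 ≤ j → j ≤ c → 2 * k ≤ 2 * c + M + 2 →
      MS.W k l (c + 1) M * (MS.W k l (c - j) M + MS.W k l (c + j) M) ≤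
        MS.W k l c M * (MS.W k l (c - j + 1) M + MS.W k l (c + j + 1) M)) :
    MS.HYPWStm := by
  intro k l t m n ht htm hmn htk hl hk
  have hpos : ∀ c, (0 : ℝ) < (MS.W k l c (n - m) : ℝ) → c ≤ k := by
    intro c hc
    by_contra hcon
    rw [h0 k l c (n - m) (by omega)] at hc
    simp at hc
  refine ⟨fun x => Nat.cast_nonneg _, ?_, ?_, ?_, ?_, ?_⟩
  · intro x y z hx hy hxz hzy
    have hx' : 0 < MS.W k l x (n - m) := by exact_mod_cast hx
    have hy' : 0 < MS.W k l y (n - m) := by exact_mod_cast hy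
    have := hH0 k l (n - m) x y z hx' hy' hxz hzy
    exact_mod_cast this
  · intro a b hab hsum ha hb hva hvb
    have hva' : 0 < MS.W k l a (n - m) := by exact_mod_cast hva
    have hvb' : 0 < MS.W k l b (n - m) := by exact_mod_cast hvb
    have := hK2 k l t m n ht htm hmn htk hl hk a b hab hsum ha hb hva' hvb'
    exact_mod_cast this
  · intro r ht1 hm hr hv
    subst ht1
    subst hm
    have hv' : 0 < MS.W k l (r + 1) (n - (1 + 2 * r)) := by exact_mod_cast hv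
    have := hK0 k l n r hmn htk hl hk hr hv'
    exact_mod_cast this
  · intro r c j ht2 hm hc hj hjr hv
    have hck := hpos _ hv
    have := hK1 k l (n - m) c j hl hck hj (by omega) (by omega)
    exact_mod_cast this
  · intro r c j ht2 hm hc hj hjr hv
    have hck := hpos _ hv
    exact K3_of_R2 (fun c => (MS.W k l c (n - m) : ℝ)) k (n - m) (fun _ => Nat.cast_nonneg _)
      (fun c hc => by rw [h0 k l c (n - m) hc]; simp)
      (fun c h1 h2 => hR2 k l (n - m) c hl h1 h2) c j hck (by omega) hj (by omega)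

end Pool.Agent.Helper42.MSK
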