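import Pool.Agent.Helper42.MS.K3
import Pool.Agent.Helper2.MS.K2
import Pool.Agent.Helper33.MS.H0
import Pool.Agent.Helper30.MS.K1

/-! MP_8815b4_co: the weights `W k l c (n - m)` satisfy the hypotheses of STEP (for `3 ≤ k`). -/

namespace Pool.Agent.Helper42.MSK

open Finset

theorem hypw3 (k l t m n : ℕ) (hk3 : 3 ≤ k) (ht : 1 ≤ t) (htm : t < m) (hmn : m ≤ n)
    (htk : t ≤ k) (hl : 2 ≤ l) (hk : 2 * k ≤ n + t) :
    MS.Hyp t m (fun c => (MS.W k l c (n - m) : ℝ)) := by
  have h0 := Pool.Agent.Helper2.MS.h0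
  have hpos : ∀ c, (0 : ℝ) < (MS.W k l c (n - m) : ℝ) → c ≤ k := by
    intro c hc
    by_contra hcon
    rw [h0 k l c (n - m) (by omega)] at hc
    simp at hc
  refine ⟨fun x => Nat.cast_nonneg _, ?_, ?_, ?_, ?_, ?_⟩
  · exact MS.W_H0_real (by omega)
  · intro a b hab hsum ha hb hva hvb
    have hva' : 0 < MS.W k l a (n - m) := by exact_mod_cast hva
    have hvb' : 0 < MS.W k l b (n - m) := by exact_mod_cast hvb
    have := Pool.Agent.Helper2.MS.hK2 k l t m n ht htm hmn htk hl hk a b hab hsum ha hb hva' hvb'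
    exact_mod_cast this
  · intro r ht1 hm hr hv
    subst ht1
    subst hm
    have hv' : 0 < MS.W k l (r + 1) (n - (1 + 2 * r)) := by exact_mod_cast hv
    have := Pool.Agent.Helper2.MS.hK0 k l n r hmn hk3 hl hk hr hv'
    exact_mod_cast this
  · exact Pool.Agent.Helper30.MS.K1_field k l t m n hmn hl hk
  · intro r c j ht2 hm hc hj hjr hv
    have hck := hpos _ hv
    exact K3_of_R2 (fun c => (MS.W k l c (n - m) : ℝ)) k (n - m) (fun _ => Nat.cast_nonneg _)
      (fun c hc => by rw [h0 k l c (n - m) hc]; simp)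
      (fun c h1 h2 => Pool.Agent.Helper2.MS.hR2 k l (n - m) c hl h1 h2) c j hck (by omega) hj
      (by omega)

end Pool.Agent.Helper42.MSK
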