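import Pool.Agent.Helper30.MS.K1
import Pool.Agent.Helper30.MS.MainW
import Pool.Agent.Helper33.MS.H0

/-! MP_8815b4_co: the sequence of the weights of the families `F_r` is unimodal. -/

namespace Pool.Agent.Helper42.MSU

open Finset

/-- weight of a family (natural numbers) of subsets of `[m]` of size at least `a` -/
noncomputable def fw (w : ℕ → ℕ) (m a : ℕ) : ℕ :=
  ∑ S ∈ (range m).powerset.filter (fun S => a ≤ #S), w #S

theorem fw_eq (w : ℕ → ℕ) (m a : ℕ) :
    fw w m a = ∑ S ∈ (range m).powerset, if a ≤ #S then w #S else 0 := by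
  unfold fw; rw [sum_filter]

/-- adding one point -/
theorem fw_succ (w : ℕ → ℕ) (m a : ℕ) :
    fw w (m + 1) (a + 1) = fw w m (a + 1) + fw (fun c => w (c + 1)) m a := by
  rw [fw_eq, fw_eq, fw_eq, range_add_one, sum_powerset_insert (by simp)]
  congr 1
  apply sum_congr rfl
  intro S hS
  have hm : m ∉ S := fun h => by
    have := mem_range.mp (mem_powerset.mp hS h); omega
  rw [card_insert_of_notMem hm]
  by_cases h : a ≤ #S
  · rw [if_pos h, if_pos (by omega)]
  · rw [if_neg h, if_neg (by omega)]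

theorem fw_add (w w' : ℕ → ℕ) (m a : ℕ) :
    fw (fun c => w c + w' c) m a = fw w m a + fw w' m a := by
  unfold fw; rw [← sum_add_distrib]

/-- peeling off the lowest level -/
theorem fw_level (w : ℕ → ℕ) (m a : ℕ) :
    fw w m a = fw w m (a + 1) + m.choose a * w a := by
  rw [fw_eq, fw_eq]
  have h : ∀ S ∈ (range m).powerset, (if a ≤ #S then w #S else 0) =
      (if a + 1 ≤ #S then w #S else 0) + (if #S = a then w a else 0) := by
    intro S _
    by_cases h1 : a + 1 ≤ #S
    · rw [if_pos (by omega), if_pos h1, if_neg (by omega)]; rfl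
    · by_cases h2 : #S = a
      · rw [if_pos (by omega), if_neg h1, if_pos h2, h2]; simp
      · rw [if_neg (by omega), if_neg h1, if_neg h2]
  rw [sum_congr rfl h, sum_add_distrib]
  congr 1
  rw [← sum_filter]
  have : (range m).powerset.filter (fun S => #S = a) = powersetCard a (range m) := by
    ext S; rw [mem_filter, mem_powerset, mem_powersetCard]
  rw [this, sum_const, card_powersetCard, card_range, smul_eq_mul]

/-- the weight of `F_r`, i.e. the number of `k`-multisets of `[n]` with multiplicities at most `l`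
whose support has at least `t + r` elements in `[t + 2r]` -/
noncomputable def f (k l t n r : ℕ) : ℕ :=
  fw (fun c => MS.W k l c (n - (t + 2 * r))) (t + 2 * r) (t + r)

/-- comparison of `F_r` and `F_{r+1}` -/
theorem f_succ (k l t n r : ℕ) (ht : 1 ≤ t) (hn : t + 2 * (r + 1) ≤ n) :
    f k l t n (r + 1) + (t + 2 * r).choose (t + r) * MS.W k l (t + r) (n - (t + 2 * (r + 1))) =
      f k l t n r + (t + 2 * r).choose (t + r - 1) * MS.W k l (t + r + 1) (n - (t + 2 * (r + 1))) := by
  obtain ⟨M, hM⟩ : ∃ M, n = t + 2 * (r + 1) + M := ⟨n - (t + 2 * (r + 1)), by omega⟩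
  have e1 : n - (t + 2 * (r + 1)) = M := by omega
  have e2 : n - (t + 2 * r) = M + 1 + 1 := by omega
  unfold f
  rw [e1, e2]
  set w : ℕ → ℕ := fun c => MS.W k l c M with hw
  have hW : (fun c => MS.W k l c (M + 1 + 1)) =
      fun c => (w c + w (c + 1)) + (w (c + 1) + w (c + 1 + 1)) := by
    funext c
    rw [Pool.Agent.Helper30.MS.W_succ, Pool.Agent.Helper30.MS.W_succ,
      Pool.Agent.Helper30.MS.W_succ]
  rw [hW]
  obtain ⟨q, hq⟩ : ∃ q, t + r = q + 1 := ⟨t + r - 1, by omega⟩
  have e3 : t + 2 * (r + 1) = t + 2 * r + 1 + 1 := by ring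
  have e4 : t + (r + 1) = q + 1 + 1 := by omega
  have e5 : t + r - 1 = q := by omega
  rw [e3, e4, e5, hq]
  set m := t + 2 * r with hm
  rw [fw_succ, fw_succ, fw_succ, fw_add, fw_add, fw_add]
  have h1 := fw_level w m (q + 1)
  have h2 := fw_level (fun c => w (c + 1 + 1)) m q
  have h3 : w (q + 1) = MS.W k l (q + 1) M := rfl
  have h4 : w (q + 1 + 1) = MS.W k l (q + 1 + 1) M := rfl
  rw [← h3, ← h4]
  -- fw w m (q+1+1) + fw (w∘s) m (q+1) + (fw (w∘s) m (q+1) + fw (w∘s∘s) m q) + choose * w(q+1)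
  have h5 : fw (fun c => w (c + 1)) m (q + 1) = fw (fun c => w (c + 1)) m (q + 1) := rfl
  omega

/-- the criterion -/
theorem f_le_iff (k l t n r : ℕ) (ht : 1 ≤ t) (hn : t + 2 * (r + 1) ≤ n) :
    f k l t n r ≤ f k l t n (r + 1) ↔
      (r + 1) * MS.W k l (t + r) (n - (t + 2 * (r + 1))) ≤
        (t + r) * MS.W k l (t + r + 1) (n - (t + 2 * (r + 1))) := by
  have h := f_succ k l t n r ht hn
  set x := MS.W k l (t + r) (n - (t + 2 * (r + 1)))
  set y := MS.W k l (t + r + 1) (n - (t + 2 * (r + 1)))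
  obtain ⟨q, hq⟩ : ∃ q, t + r = q + 1 := ⟨t + r - 1, by omega⟩
  have e5 : t + r - 1 = q := by omega
  rw [e5] at h
  rw [hq] at h ⊢
  have hc : (t + 2 * r).choose (q + 1) * (q + 1) = (t + 2 * r).choose q * (r + 1) := by
    have := Nat.choose_succ_right_eq (t + 2 * r) q
    rw [this]
    congr 1
    omega
  have hpos : 0 < (t + 2 * r).choose q := Nat.choose_pos (by omega)
  have h1 : f k l t n r ≤ f k l t n (r + 1) ↔
      (t + 2 * r).choose (q + 1) * x ≤ (t + 2 * r).choose q * y := by omega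
  rw [h1]
  constructor
  · intro h2
    have h3 : (t + 2 * r).choose q * ((r + 1) * x) ≤ (t + 2 * r).choose q * ((q + 1) * y) := by
      calc (t + 2 * r).choose q * ((r + 1) * x) = ((t + 2 * r).choose q * (r + 1)) * x := by ring
        _ = (q + 1) * ((t + 2 * r).choose (q + 1) * x) := by rw [← hc]; ring
        _ ≤ (q + 1) * ((t + 2 * r).choose q * y) := Nat.mul_le_mul_left _ h2
        _ = (t + 2 * r).choose q * ((q + 1) * y) := by ring
    exact Nat.le_of_mul_le_mul_left h3 hpos
  · intro h2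
    have h3 : (q + 1) * ((t + 2 * r).choose (q + 1) * x) ≤
        (q + 1) * ((t + 2 * r).choose q * y) := by
      calc (q + 1) * ((t + 2 * r).choose (q + 1) * x) =
            ((t + 2 * r).choose (q + 1) * (q + 1)) * x := by ring
        _ = (t + 2 * r).choose q * ((r + 1) * x) := by rw [hc]; ring
        _ ≤ (t + 2 * r).choose q * ((q + 1) * y) := Nat.mul_le_mul_left _ h2
        _ = (q + 1) * ((t + 2 * r).choose q * y) := by ring
    exact Nat.le_of_mul_le_mul_left h3 (Nat.succ_pos q)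

/-- unimodality: in the relevant range a step up is preceded by steps up. -/
theorem unimodal (k l t n r : ℕ) (ht : 1 ≤ t) (hl : 2 ≤ l) (hk : 2 * k ≤ n + t)
    (hrk : t + r + 1 ≤ k) (hn : t + 2 * (r + 2) ≤ n)
    (h : f k l t n (r + 1) ≤ f k l t n (r + 2)) :
    f k l t n r ≤ f k l t n (r + 1) := by
  rw [f_le_iff k l t n (r + 1) ht hn] at h
  rw [f_le_iff k l t n r ht (by omega)]
  obtain ⟨M, hM⟩ : ∃ M, n = t + 2 * (r + 2) + M := ⟨n - (t + 2 * (r + 2)), by omega⟩
  have e1 : n - (t + 2 * (r + 1 + 1)) = M := by omega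
  have e2 : n - (t + 2 * (r + 1)) = M + 1 + 1 := by omega
  rw [e1] at h
  rw [e2]
  have e3 : t + (r + 1) = t + r + 1 := by ring
  rw [e3] at h
  simp only [Pool.Agent.Helper30.MS.W_succ]
  have hw1pos := @MS.W_pos_iff k l (t + r + 1) M (by omega)
  have hw0pos := @MS.W_pos_iff k l (t + r) M (by omega)
  set w0 := MS.W k l (t + r) M with hw0
  set w1 := MS.W k l (t + r + 1) M with hw1
  set w2 := MS.W k l (t + r + 1 + 1) M with hw2
  set w3 := MS.W k l (t + r + 1 + 1 + 1) M with hw3
  have hK := Pool.Agent.Helper30.MS.K1_real k l M (t + r + 1) 1 hl (by omega) (by omega)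
  have e4 : t + r + 1 - 1 = t + r := by omega
  rw [e4] at hK
  rw [← hw0, ← hw1, ← hw2, ← hw3] at hK
  have hK' : w2 * (w0 + w2) ≤ w1 * (w1 + w3) := by exact_mod_cast hK
  rcases Nat.eq_zero_or_pos w1 with hz | hpos
  · have h1 : w2 = 0 := by
      rw [hz] at hK'
      simp only [zero_mul, Nat.le_zero, Nat.mul_eq_zero] at hK'
      rcases hK' with h' | h' <;> omega
    have h0 : w0 = 0 := by
      by_contra hne
      have hp : 0 < w0 := Nat.pos_of_ne_zero hne
      have hq := hw0pos.mp hp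
      have : 0 < w1 := hw1pos.mpr ⟨hrk, le_trans hq.2 (Nat.mul_le_mul_left _ (by omega))⟩
      omega
    rw [h0, h1, hz]
    simp
  · obtain ⟨A, hA⟩ : ∃ A, A = w0 + w1 + (w1 + w2) := ⟨_, rfl⟩
    obtain ⟨B, hB⟩ : ∃ B, B = w1 + w2 + (w2 + w3) := ⟨_, rfl⟩
    rw [← hA, ← hB]
    have h1 : A * w2 ≤ B * w1 := by rw [hA, hB]; nlinarith
    have h2 : w1 * ((r + 2) * A) ≤ w1 * ((t + r + 1) * B) := by
      calc w1 * ((r + 2) * A) = ((r + 1 + 1) * w1) * A := by ring
        _ ≤ ((t + r + 1) * w2) * A := Nat.mul_le_mul_right _ h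
        _ = (t + r + 1) * (A * w2) := by ring
        _ ≤ (t + r + 1) * (B * w1) := Nat.mul_le_mul_left _ h1
        _ = w1 * ((t + r + 1) * B) := by ring
    have h3 : (r + 2) * A ≤ (t + r + 1) * B := Nat.le_of_mul_le_mul_left h2 hpos
    have h4 : (t + r + 1) * ((r + 1) * A) ≤ (t + r + 1) * ((t + r) * B) := by
      have h5 : (r + 1) * (t + r + 1) ≤ (r + 2) * (t + r) := by nlinarith
      calc (t + r + 1) * ((r + 1) * A) = ((r + 1) * (t + r + 1)) * A := by ring
        _ ≤ ((r + 2) * (t + r)) * A := Nat.mul_le_mul_right _ h5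
        _ = (t + r) * ((r + 2) * A) := by ring
        _ ≤ (t + r) * ((t + r + 1) * B) := Nat.mul_le_mul_left _ h3
        _ = (t + r + 1) * ((t + r) * B) := by ring
    exact Nat.le_of_mul_le_mul_left h4 (by omega)

/-- the explicit value: `f k l t n r = ∑_{s=t+r}^{t+2r} C(t+2r, s) W k l s (n-t-2r)` -/
theorem f_eq (k l t n r : ℕ) : f k l t n r =
    ∑ s ∈ Icc (t + r) (t + 2 * r), (t + 2 * r).choose s * MS.W k l s (n - (t + 2 * r)) := by
  unfold f fw
  rw [← sum_fiberwise_of_maps_to (s := (range (t + 2 * r)).powerset.filter (fun S => t + r ≤ #S))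
    (t := Icc (t + r) (t + 2 * r)) (g := fun S => #S) (by
      intro S hS
      rw [mem_filter, mem_powerset] at hS
      rw [mem_Icc]
      refine ⟨hS.2, ?_⟩
      have := card_le_card hS.1
      rwa [card_range] at this)]
  apply sum_congr rfl
  intro s hs
  rw [mem_Icc] at hs
  have : ((range (t + 2 * r)).powerset.filter (fun S => t + r ≤ #S)).filter (fun S => #S = s) =
      powersetCard s (range (t + 2 * r)) := by
    ext S
    rw [mem_filter, mem_filter, mem_powerset, mem_powersetCard]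
    constructor
    · rintro ⟨⟨h1, _⟩, h3⟩; exact ⟨h1, h3⟩
    · rintro ⟨h1, h2⟩; exact ⟨⟨h1, by omega⟩, h2⟩
  rw [this, sum_congr rfl (g := fun _ => MS.W k l s (n - (t + 2 * r))) (by
    intro S hS
    rw [mem_powersetCard] at hS
    rw [hS.2])]
  rw [sum_const, card_powersetCard, card_range, smul_eq_mul]

end Pool.Agent.Helper42.MSU
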